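import Mathlib

/-!
# Tensors, transforms, coercive forms and finiteness of orbits
-/

set_option autoImplicit false

open Finset

namespace Pool.Agent.T2H26.NP

section Trans

variable {H : Type} [Fintype H] [DecidableEq H]

/-- the transform of a tensor -/
def trT {R : Type} [CommRing R] {a b : ℕ} (p q : Matrix H H R) (t : (Fin a → H) → (Fin b → H) → R) :
    (Fin a → H) → (Fin b → H) → R :=
  fun c d => ∑ u, ∑ v, (∏ i, p (c i) (u i)) * t u v * ∏ j, q (v j) (d j)

theorem prod_mul_pi {R : Type} [CommRing R] {a : ℕ} (p q : Matrix H H R) (c d : Fin a → H) :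
    ∏ i, (p * q) (c i) (d i) = ∑ u : Fin a → H, (∏ i, p (c i) (u i)) * ∏ i, q (u i) (d i) := by
  simp only [Matrix.mul_apply]
  rw [Finset.prod_univ_sum]
  simp only [Fintype.piFinset_univ]
  exact Finset.sum_congr rfl fun u _ => Finset.prod_mul_distrib

theorem trT_trT {R : Type} [CommRing R] {a b : ℕ} (p q p' q' : Matrix H H R) (t : (Fin a → H) → (Fin b → H) → R) :
    trT p q (trT p' q' t) = trT (p * p') (q' * q) t := by
  funext c d
  unfold trT
  simp only [prod_mul_pi, Finset.mul_sum, Finset.sum_mul]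
  -- order of summation: `∑ u, ∑ v, ∑ u', ∑ v'` against `∑ u', ∑ v', ∑ v, ∑ u`
  have e1 : ∀ F : (Fin a → H) → (Fin b → H) → (Fin a → H) → (Fin b → H) → R,
      (∑ u, ∑ v, ∑ u', ∑ v', F u v u' v') = ∑ u', ∑ v', ∑ v, ∑ u, F u v u' v' := by
    intro F
    calc (∑ u, ∑ v, ∑ u', ∑ v', F u v u' v') = ∑ u, ∑ u', ∑ v, ∑ v', F u v u' v' :=
          Finset.sum_congr rfl fun u _ => Finset.sum_comm
      _ = ∑ u', ∑ u, ∑ v, ∑ v', F u v u' v' := Finset.sum_comm
      _ = ∑ u', ∑ v', ∑ v, ∑ u, F u v u' v' := by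
        refine Finset.sum_congr rfl fun u' _ => ?_
        calc (∑ u, ∑ v, ∑ v', F u v u' v') = ∑ u, ∑ v', ∑ v, F u v u' v' :=
              Finset.sum_congr rfl fun u _ => Finset.sum_comm
          _ = ∑ v', ∑ u, ∑ v, F u v u' v' := Finset.sum_comm
          _ = ∑ v', ∑ v, ∑ u, F u v u' v' := Finset.sum_congr rfl fun v' _ => Finset.sum_comm
  rw [e1]
  refine Finset.sum_congr rfl fun u' _ => Finset.sum_congr rfl fun v' _ => Finset.sum_congr rfl fun v _ =>
    Finset.sum_congr rfl fun u _ => ?_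
  ring

theorem trT_map {R S : Type} [CommRing R] [CommRing S] (f : R →+* S) {a b : ℕ} (p q : Matrix H H R)
    (t : (Fin a → H) → (Fin b → H) → R) (c : Fin a → H) (d : Fin b → H) :
    f (trT p q t c d) = trT (p.map f) (q.map f) (fun u v => f (t u v)) c d := by
  unfold trT
  simp only [map_sum, map_mul, map_prod, Matrix.map_apply]

theorem trT_add {R : Type} [CommRing R] {a b : ℕ} (p q : Matrix H H R) (t t' : (Fin a → H) → (Fin b → H) → R) :
    trT p q (t + t') = trT p q t + trT p q t' := by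
  funext c d
  unfold trT
  simp only [Pi.add_apply, mul_add, add_mul, Finset.sum_add_distrib]

theorem trT_smul {R : Type} [CommRing R] {a b : ℕ} (p q : Matrix H H R) (r : R) (t : (Fin a → H) → (Fin b → H) → R) :
    trT p q (r • t) = r • trT p q t := by
  funext c d
  unfold trT
  simp only [Pi.smul_apply, smul_eq_mul, Finset.mul_sum]
  refine Finset.sum_congr rfl fun u _ => Finset.sum_congr rfl fun v _ => ?_
  ring

theorem trT_zero {R : Type} [CommRing R] {a b : ℕ} (p q : Matrix H H R) :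
    trT p q (0 : (Fin a → H) → (Fin b → H) → R) = 0 := by
  funext c d
  simp [trT]

end Trans

section Coer

variable {E : Type} [NormedAddCommGroup E] [NormedSpace ℝ E] [FiniteDimensional ℝ E]

theorem coercive (S : Submodule ℝ E) (B : E →ₗ[ℝ] E →ₗ[ℝ] ℝ) (h : ∀ y ∈ S, y ≠ 0 → 0 < B y y) :
    ∃ c : ℝ, 0 < c ∧ ∀ y ∈ S, c * ‖y‖ ^ 2 ≤ B y y := by
  have hcont : Continuous fun y => B y y := by
    let B' : E →ₗ[ℝ] (E →L[ℝ] ℝ) := (LinearMap.toContinuousLinearMap : (E →ₗ[ℝ] ℝ) ≃ₗ[ℝ] (E →L[ℝ] ℝ)).toLinearMap ∘ₗ B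
    have h1 : Continuous B' := LinearMap.continuous_of_finiteDimensional B'
    exact h1.clm_apply continuous_id
  have hclosed : IsClosed (S : Set E) := Submodule.closed_of_finiteDimensional S
  have : ProperSpace E := FiniteDimensional.proper ℝ E
  have hK : IsCompact ((S : Set E) ∩ Metric.sphere (0 : E) 1) := (isCompact_sphere 0 1).inter_left hclosed
  have hn : ∀ y ∈ S, y ≠ 0 → ‖y‖⁻¹ • y ∈ (S : Set E) ∩ Metric.sphere (0 : E) 1 := by
    intro y hy hy0
    refine ⟨S.smul_mem _ hy, ?_⟩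
    rw [mem_sphere_zero_iff_norm, norm_smul, norm_inv, norm_norm, inv_mul_cancel₀ (norm_ne_zero_iff.2 hy0)]
  rcases ((S : Set E) ∩ Metric.sphere (0 : E) 1).eq_empty_or_nonempty with hemp | hne
  · refine ⟨1, one_pos, fun y hy => ?_⟩
    by_cases hy0 : y = 0
    · subst hy0
      simp
    · exact absurd (hn y hy hy0) (by rw [hemp]; exact Set.notMem_empty _)
  · obtain ⟨y0, ⟨hy0S, hy01⟩, hmin⟩ := hK.exists_isMinOn hne hcont.continuousOn
    have hy00 : y0 ≠ 0 := by
      rintro rfl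
      rw [mem_sphere_zero_iff_norm, norm_zero] at hy01
      exact zero_ne_one hy01
    refine ⟨B y0 y0, h y0 hy0S hy00, fun y hy => ?_⟩
    by_cases hy0 : y = 0
    · subst hy0
      simp
    · have h1 : B y0 y0 ≤ B (‖y‖⁻¹ • y) (‖y‖⁻¹ • y) := hmin (hn y hy hy0)
      rw [map_smul, map_smul, LinearMap.smul_apply, smul_eq_mul, smul_eq_mul] at h1
      have h2 : 0 < ‖y‖ := norm_pos_iff.2 hy0
      calc B y0 y0 * ‖y‖ ^ 2 ≤ (‖y‖⁻¹ * (‖y‖⁻¹ * (B y) y)) * ‖y‖ ^ 2 :=
            mul_le_mul_of_nonneg_right h1 (by positivity)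
        _ = B y y := by
          field_simp

end Coer

theorem int_finite {α β : Type} [Fintype α] [Fintype β] [DecidableEq α] [DecidableEq β] (P : Set (α → β → ℤ)) (R : ℝ)
    (h : ∀ t ∈ P, ∀ u v, |(t u v : ℝ)| ≤ R) : P.Finite := by
  obtain ⟨N, hN⟩ := exists_nat_ge R
  refine (Set.finite_Icc (fun _ _ => -(N : ℤ)) (fun _ _ => (N : ℤ)) : (Set.Icc _ _ : Set (α → β → ℤ)).Finite).subset ?_
  intro t ht
  constructor
  · intro u v
    have h1 := (abs_le.1 ((h t ht u v).trans hN)).1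
    exact_mod_cast h1
  · intro u v
    have h1 := (abs_le.1 ((h t ht u v).trans hN)).2
    exact_mod_cast h1

end Pool.Agent.T2H26.NP
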