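import Pool.Agent.T2H26.NP.Near
import Pool.Agent.Y890.VH.Inc

/-!
# Tensors in a step of the Hodge filtration near a given point
-/

set_option autoImplicit false
set_option linter.unusedSectionVars false

open NumberField Filter Topology
open scoped ENNReal NNReal

namespace Pool.Agent.T2H26.NP

open Pool.Agent Pool.Agent.Y890.MV Pool.Agent.Y890.VH

section Alg

variable {H : Type} [Fintype H] [DecidableEq H]

/-- the coordinates of a tensor in the basis given by the columns of `g`, up to a power of the determinant -/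
noncomputable def coA {a b : ℕ} (g : Matrix H H ℂ) (t : (Fin a → H) → (Fin b → H) → ℂ) (c : Fin a → H)
    (d : Fin b → H) : ℂ :=
  ∑ i : (Fin a → H) × (Fin b → H), t i.1 i.2 * ((∏ j, g.adjugate (c j) (i.1 j)) * ∏ j, g (i.2 j) (d j))

/-- the level of a pair of multiindices -/
def levT {a b : ℕ} (lev : H → ℤ) (c : Fin a → H) (d : Fin b → H) : ℤ := ∑ i, lev (c i) - ∑ j, lev (d j)

/-- the tensor is in the step `0` of the filtration -/
def InA {a b : ℕ} (lev : H → ℤ) (g : Matrix H H ℂ) (t : (Fin a → H) → (Fin b → H) → ℂ) : Prop :=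
  ∀ (c : Fin a → H) (d : Fin b → H), levT lev c d < 0 → coA g t c d = 0

/-- the generic matrix -/
noncomputable def Gm (H : Type) : Matrix H H (MvPolynomial (H × H) ℂ) := Matrix.of fun i j => MvPolynomial.X (i, j)

/-- the polynomial giving a coefficient of a coordinate -/
noncomputable def PT {a b : ℕ} (c : Fin a → H) (d : Fin b → H) (u : Fin a → H) (v : Fin b → H) :
    MvPolynomial (H × H) ℂ :=
  (∏ j, (Gm H).adjugate (c j) (u j)) * ∏ j, MvPolynomial.X (v j, d j)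

theorem eval_adj (y : H × H → ℂ) (i j : H) : MvPolynomial.eval y ((Gm H).adjugate i j) =
    (Matrix.of fun i j => y (i, j) : Matrix H H ℂ).adjugate i j := by
  have h := RingHom.map_adjugate (MvPolynomial.eval y) (Gm H)
  have h3 : (MvPolynomial.eval y).mapMatrix (Gm H) = (Matrix.of fun i j => y (i, j) : Matrix H H ℂ) := by
    ext i j
    simp [Gm]
  rw [h3] at h
  have h2 := congrFun (congrFun h i) j
  rw [RingHom.mapMatrix_apply, Matrix.map_apply] at h2
  exact h2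

theorem eval_PT {a b : ℕ} (y : H × H → ℂ) (c : Fin a → H) (d : Fin b → H) (u : Fin a → H) (v : Fin b → H) :
    MvPolynomial.eval y (PT c d u v) = (∏ j, (Matrix.of fun i j => y (i, j) : Matrix H H ℂ).adjugate (c j) (u j)) *
      ∏ j, (Matrix.of fun i j => y (i, j) : Matrix H H ℂ) (v j) (d j) := by
  unfold PT
  rw [map_mul, map_prod, map_prod]
  congr 1
  · exact Finset.prod_congr rfl fun j _ => eval_adj _ _ _
  · exact Finset.prod_congr rfl fun j _ => by rw [MvPolynomial.eval_X]; rfl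

/-- the linear conditions -/
noncomputable def WT (a b : ℕ) (lev : H → ℤ) (q i : (Fin a → H) × (Fin b → H)) (_ : Unit) : MvPolynomial (H × H) ℂ :=
  if levT lev q.1 q.2 < 0 then PT q.1 q.2 i.1 i.2 else 0

/-- no columns -/
noncomputable def AT (a b : ℕ) (_ : (Fin a → H) × (Fin b → H)) (_ : Unit) (e : Empty) : MvPolynomial (H × H) ℂ := e.elim

theorem cols_empty (A : Unit → Empty → ℂ) : cols A = ⊥ := by
  unfold cols
  rw [Set.range_eq_empty, Submodule.span_empty]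

theorem inc_iffT {a b : ℕ} (lev : H → ℤ) (y : H × H → ℂ) (t : (Fin a → H) × (Fin b → H) → ℂ) :
    Inc (AT a b) (WT a b lev) y t ↔ InA lev (Matrix.of fun i j => y (i, j)) (fun u v => t (u, v)) := by
  unfold Inc InA
  constructor
  · intro h c d hcd
    have h1 := h (c, d)
    rw [cols_empty, Submodule.mem_bot] at h1
    have h2 := congrFun h1 ()
    simp only [WT, if_pos hcd, Pi.zero_apply] at h2
    unfold coA
    rw [← h2]
    exact Finset.sum_congr rfl fun i _ => by rw [eval_PT]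
  · intro h q
    rw [cols_empty, Submodule.mem_bot]
    funext m
    by_cases hq : levT lev q.1 q.2 < 0
    · have h1 := h q.1 q.2 hq
      unfold coA at h1
      simp only [WT, if_pos hq, Pi.zero_apply]
      rw [← h1]
      exact Finset.sum_congr rfl fun i _ => by rw [eval_PT]
    · simp [WT, if_neg hq]

end Alg

variable {X H : Type} [Fintype X] [DecidableEq X] [Nonempty X] [Fintype H] [DecidableEq H]

/-- the functions given by the entries of a matrix -/
def fnn (g : (X → ℂ) → Matrix H H ℂ) : H × H → (X → ℂ) → ℂ := fun q x => g x q.1 q.2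

/-- left multiplication -/
noncomputable def actM (γ : Matrix H H ℂ) (y : H × H → ℂ) : H × H → ℂ :=
  fun q => (γ * (Matrix.of fun i j => y (i, j))) q.1 q.2

/-- a tensor of size at most `T ^ k` in step `0` of the filtration at `s`, but not of all of its transforms -/
def BadT {a b : ℕ} (lev : H → ℤ) (g : (X → ℂ) → Matrix H H ℂ) (Γ : Set (Matrix H H ℂ)) (K : Type) [Field K] [NumberField K]
    (io : K →+* ℂ) (k : ℕ) (T : ℝ) (s : X → K) : Prop :=
  ∃ t : (Fin a → H) → (Fin b → H) → 𝓞 K, (∀ u v (φ : K →+* ℂ), ‖φ (t u v : K)‖ ≤ T ^ k) ∧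
    InA lev (g fun j => io (s j)) (fun u v => io (t u v : K)) ∧
    ∃ γ ∈ Γ, ¬ InA lev (γ * g fun j => io (s j)) (fun u v => io (t u v : K))

theorem badT_mono {a b : ℕ} (lev : H → ℤ) (g : (X → ℂ) → Matrix H H ℂ) (Γ : Set (Matrix H H ℂ)) (K : Type) [Field K]
    [NumberField K] (io : K →+* ℂ) (k : ℕ) (T T' : ℝ) (s : X → K) (hT : 1 ≤ T) (hTT : T ≤ T')
    (h : BadT (a := a) (b := b) lev g Γ K io k T s) : BadT (a := a) (b := b) lev g Γ K io k T' s := by
  obtain ⟨t, h1, h2⟩ := h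
  exact ⟨t, fun u v φ => (h1 u v φ).trans (pow_le_pow_left₀ (by linarith) hTT k), h2⟩

/-- the relations between the entries of `g` are relations between the entries of `γ g` -/
def InvM (U : Set (X → ℂ)) (g : (X → ℂ) → Matrix H H ℂ) (γ : Matrix H H ℂ) : Prop :=
  ∀ p : MvPolynomial (H × H) (MvPolynomial X ℂ), (∀ x ∈ U, evM (fnn g) x p = 0) →
    ∀ x ∈ U, evX x (fun q => (γ * g x) q.1 q.2) p = 0

theorem badT_cov {a b : ℕ} {U : Set (X → ℂ)} {lev : H → ℤ} {g : (X → ℂ) → Matrix H H ℂ}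
    (hU : IsPreconnected U) (hUo : IsOpen U) (hne : U.Nonempty) (hf : ∀ i j, AnalyticOnNhd ℂ (fun x => g x i j) U)
    (hreg : RegularM U (fnn g)) (Γ : Set (Matrix H H ℂ)) (hΓ : ∀ γ ∈ Γ, InvM U g γ)
    (K : Type) [Field K] [NumberField K] (io : K →+* ℂ) (k : ℕ) (ε : ℝ) (hk : 0 < k) (hε : 0 < ε) :
    ∃ (D : ℕ) (C T₀ : ℝ), 0 ≤ C ∧ ∀ T : ℝ, T₀ ≤ T → Y124.Cov D ⌊C * T ^ ε⌋₊ ((fun (s : X → K) j => io (s j)) ''
      {s | (∀ j, Y120.HtLe K T (s j)) ∧ (fun j => io (s j)) ∈ InnerM U k ∧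
        BadT (a := a) (b := b) lev g Γ K io k T s}) := by
  classical
  obtain ⟨D, C, T₀, hC, -, h⟩ := excI_cov (U := U) (f := fnn g) hU hUo hne (fun q => hf q.1 q.2) hreg (InnerM U k)
    (innerM_compact _ _) (innerM_sub _ hk) (AT a b) (WT a b lev) {g' | ∃ γ ∈ Γ, g' = actM γ} (by
      rintro _ ⟨γ, hγ, rfl⟩ p hp x hx
      exact hΓ γ hγ p hp x hx) (by
      rintro _ ⟨γ, hγ, rfl⟩ x _ q
      have h1 : ∀ y : H × H → ℂ, cols (fun (m : Unit) (e : Empty) => MvPolynomial.eval y (AT a b q m e)) = ⊥ :=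
        fun y => cols_empty _
      rw [h1, h1]) (Module.finrank ℚ K) (k : ℝ) ε (Nat.cast_nonneg _) hε
  refine ⟨D, C, T₀, hC, fun T hT => (h K le_rfl io T hT).mono le_rfl le_rfl (Set.image_mono ?_)⟩
  rintro s ⟨h1, h2, t, h3, h4, γ, hγ, h5⟩
  refine ⟨h1, h2, fun i => t i.1 i.2, fun i φ => ?_, ?_, actM γ, ⟨γ, hγ, rfl⟩, ?_⟩
  · rw [Real.rpow_natCast]
    exact h3 _ _ φ
  · rw [inc_iffT]
    exact h4
  · rw [inc_iffT]
    exact h5

/-- near all points outside a small set, all number fields -/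
theorem near_T {a b : ℕ} {U : Set (X → ℂ)} {lev : H → ℤ} {g : (X → ℂ) → Matrix H H ℂ}
    (hU : IsPreconnected U) (hUo : IsOpen U) (hne : U.Nonempty) (hf : ∀ i j, AnalyticOnNhd ℂ (fun x => g x i j) U)
    (hreg : RegularM U (fnn g)) (Γ : Set (Matrix H H ℂ)) (hΓ : ∀ γ ∈ Γ, InvM U g γ) :
    ∃ E : Set (X → ℂ), dimH E ≤ ((2 * (Fintype.card X - 1) : ℕ) : ℝ≥0∞) ∧
      ∀ ξ ∈ U, ξ ∉ E → ∃ k₀ : ℕ, ∀ (K : IntermediateField ℚ ℂ) [NumberField K], ∀ k : ℕ, k₀ ≤ k → ∀ w : ℝ, 0 < w →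
        ∃ T₁ : ℝ, ∀ T ≥ T₁, ∀ s : X → K, (∀ j, Y120.HtLe K T (s j) ∧ ‖(s j : ℂ) - ξ j‖ ≤ T ^ (-w)) →
          ¬ BadT (a := a) (b := b) lev g Γ K (algebraMap K ℂ) k T s := by
  classical
  obtain ⟨E, hE1, hE2⟩ := allFields U hUo (fun K k T s => ∀ _ : NumberField K,
      BadT (a := a) (b := b) lev g Γ K (algebraMap K ℂ) k T s)
    (fun K k T T' s hT hTT h hK => badT_mono lev g Γ K _ k T T' s hT hTT (h hK)) (by
      intro K _ k ε hk hε
      obtain ⟨D, C, T₀, hC, h⟩ := badT_cov (a := a) (b := b) (lev := lev) hU hUo hne hf hreg Γ hΓ K (algebraMap K ℂ)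
        k ε hk hε
      refine ⟨D, C, T₀, hC, fun T hT => (h T hT).mono le_rfl le_rfl (Set.image_mono ?_)⟩
      rintro s ⟨h1, h2, h3⟩
      exact ⟨h1, h2, h3 inferInstance⟩)
  refine ⟨E, hE1, fun ξ hξ hξE => ?_⟩
  obtain ⟨k₀, hk₀⟩ := hE2 ξ hξ hξE
  refine ⟨k₀, fun K _ k hk w hw => ?_⟩
  obtain ⟨T₁, h⟩ := hk₀ K k hk w hw
  exact ⟨T₁, fun T hT s hs hbad => h T hT s hs fun _ => by convert hbad⟩

end Pool.Agent.T2H26.NP
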